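import Pool.Agent.Helper2.SH.Kd
import Pool.Agent.Helper35.SH.Ef

/-!
PROJECT ALLQ (MP_274814_nt), block K: `K_scale` and `K_unique`, word for word from Tg.lean.
-/

set_option autoImplicit false

namespace Pool.Agent.Helper2.SH

open Finset Complex Pool.Agent.Helper34.LT LTG Pool.Agent.Helper34.LU Pool.Agent.Helper49.SH

noncomputable section

theorem K_scale {q : ℕ} {s : Finset ℕ} {ξ : Polynomial ℚ} {E : Iq q → Iq q → ℚ} (hs : HS q s)
    (hK : KForm q ξ E) (hP : Pol E (Ns q s)) (hG : Good E (Ns q s)) : ∃ ρ, GoodS q s ρ :=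
  K_scale_form hs hK hP hG (Pool.Agent.Helper35.SH.E_form hP hG)

theorem K_unique {q : ℕ} {s : Finset ℕ} {ρ ρ' : ℕ → ℂ} (h : GoodS q s ρ) (h' : GoodS q s ρ') :
    ∀ u ∈ s, IsAlgebraic ℚ (ρ u / ρ' u) :=
  K_unique_of h h' (fun _ hP hG => Pool.Agent.Helper35.SH.E_form hP hG)
    (fun _ _ hP hP' hG hG' => Pool.Agent.Helper35.SH.E_indep hP hP' hG hG')

end

end Pool.Agent.Helper2.SH
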