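import Pool.Agent.Helper49.SH.Df

/-!
PROJECT ALLQ (MP_274814_nt), block K, part 1: coordinates of the cyclotomic field, multiplication
matrices, the vectors `ε`.
-/

set_option autoImplicit false

namespace Pool.Agent.Helper2.SH

open Finset Complex Pool.Agent.Helper34.LT LTG Pool.Agent.Helper34.LU Pool.Agent.Helper49.SH

noncomputable section

theorem zt_prim {q : ℕ} (hq : q ≠ 0) : IsPrimitiveRoot (zt q) q :=
  Complex.isPrimitiveRoot_exp q hq

theorem zt_pow_q {q : ℕ} (hq : q ≠ 0) : zt q ^ q = 1 := (zt_prim hq).pow_eq_one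

theorem zt_alg {q : ℕ} (hq : q ≠ 0) (n : ℕ) : IsAlgebraic ℚ (zt q ^ n) := by
  refine IsAlgebraic.pow ?_ n
  refine ⟨Polynomial.X ^ q - 1, ?_, ?_⟩
  · exact Polynomial.X_pow_sub_C_ne_zero (Nat.pos_of_ne_zero hq) (1 : ℚ)
  · rw [map_sub, map_pow, Polynomial.aeval_X, map_one, zt_pow_q hq, sub_self]

theorem zt_inj {q : ℕ} (hq : q ≠ 0) {u v : ℕ} (hu : u ∈ UU q) (hv : v ∈ UU q)
    (h : zt q ^ u = zt q ^ v) : u = v := by
  rw [mem_UU] at hu hv
  exact (zt_prim hq).pow_inj (by omega) (by omega) h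

theorem UU_neg {q : ℕ} {u : ℕ} (hu : u ∈ UU q) : q - u ∈ UU q := by
  rw [mem_UU] at hu ⊢
  refine ⟨by omega, ?_⟩
  exact (Nat.coprime_self_sub_left (by omega)).2 hu.2

theorem zt_conj {q : ℕ} (hq : q ≠ 0) {u : ℕ} (hu : u ≤ q) (i : ℕ) :
    (starRingEnd ℂ) (zt q ^ ((q - u) * i)) = zt q ^ (u * i) := by
  have h1 : ‖zt q‖ = 1 := (zt_prim hq).norm'_eq_one hq
  have h2 : (starRingEnd ℂ) (zt q) = (zt q)⁻¹ := by
    rw [Complex.inv_def, Complex.normSq_eq_norm_sq, h1]
    simp
  have h3 : zt q ≠ 0 := by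
    intro h
    rw [h, norm_zero] at h1
    exact zero_ne_one h1
  rw [map_pow, h2, inv_pow]
  refine inv_eq_of_mul_eq_one_right ?_
  rw [← pow_add, ← add_mul, Nat.sub_add_cancel hu, pow_mul, zt_pow_q hq, one_pow]

theorem card_UU {q : ℕ} (hq : 2 ≤ q) : (UU q).card = q.totient := by
  rw [Nat.totient_eq_card_coprime]
  congr 1
  ext u
  rw [mem_UU, mem_filter, mem_range, Nat.coprime_comm]
  constructor
  · rintro ⟨h1, h2⟩
    exact ⟨by omega, h2⟩
  · rintro ⟨h1, h2⟩
    refine ⟨⟨?_, by omega⟩, h2⟩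
    rcases Nat.eq_zero_or_pos u with h | h
    · subst h
      rw [Nat.coprime_zero_right] at h2
      omega
    · exact h

theorem card_half2 {q : ℕ} {s : Finset ℕ} (hs : HS q s) : 2 * s.card = q.totient := by
  classical
  have h3 := hs.three
  rw [← card_UU (by omega : 2 ≤ q)]
  have h1 : UU q = s ∪ s.image (fun u => q - u) := by
    ext u
    rw [mem_union, mem_image]
    constructor
    · intro hu
      obtain ⟨h4, h5⟩ := mem_UU.1 hu
      by_cases h : u ∈ s
      · exact Or.inl h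
      · right
        obtain ⟨h6, h7⟩ := mem_UU.1 (UU_neg hu)
        refine ⟨q - u, (hs.half (q - u) (by omega) (by omega) h7).2 ?_, by omega⟩
        rwa [Nat.sub_sub_self (by omega)]
    · rintro (h | ⟨v, hv, rfl⟩)
      · exact HS_mem hs ⟨u, h⟩
      · exact HS_mem' hs ⟨v, hv⟩
  have h2 : Disjoint s (s.image (fun u => q - u)) := by
    rw [disjoint_left]
    intro u hu hu'
    obtain ⟨v, hv, h⟩ := mem_image.1 hu'
    obtain ⟨a1, a2, a3⟩ := hs.mem v hv
    have h4 := (hs.half v a1 a2 a3).1 hv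
    rw [h] at h4
    exact h4 hu
  rw [h1, card_union_of_disjoint h2, card_image_of_injOn, two_mul]
  intro a ha b hb hab
  obtain ⟨a1, a2, -⟩ := hs.mem a ha
  obtain ⟨b1, b2, -⟩ := hs.mem b hb
  simp only at hab
  omega

theorem em_add (q u : ℕ) (w w' : Iq q → ℂ) : em q u (w + w') = em q u w + em q u w' := by
  simp [Pool.Agent.Helper49.SH.em, add_mul, Finset.sum_add_distrib]

theorem em_smul (q u : ℕ) (c : ℂ) (w : Iq q → ℂ) : em q u (c • w) = c * em q u w := by
  simp [Pool.Agent.Helper49.SH.em, Finset.mul_sum, mul_assoc]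

theorem em_sub (q u : ℕ) (w w' : Iq q → ℂ) : em q u (w - w') = em q u w - em q u w' := by
  simp [Pool.Agent.Helper49.SH.em, sub_mul, Finset.sum_sub_distrib]

theorem em_zero (q u : ℕ) : em q u 0 = 0 := by simp [Pool.Agent.Helper49.SH.em]

/-- `em` as a linear map -/
def emL (q u : ℕ) : (Iq q → ℂ) →ₗ[ℂ] ℂ where
  toFun := em q u
  map_add' := em_add q u
  map_smul' c w := by rw [em_smul, RingHom.id_apply, smul_eq_mul]

theorem emL_apply (q u : ℕ) (w : Iq q → ℂ) : emL q u w = em q u w := rfl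

theorem em_cj {q : ℕ} (hq : q ≠ 0) {u : ℕ} (hu : u ≤ q) (w : Iq q → ℂ) :
    em q u (cj w) = (starRingEnd ℂ) (em q (q - u) w) := by
  rw [Pool.Agent.Helper49.SH.em, Pool.Agent.Helper49.SH.em, map_sum]
  refine Finset.sum_congr rfl fun i _ => ?_
  rw [map_mul, zt_conj hq hu]
  rfl

theorem mem_Nc_Ns {q : ℕ} {s : Finset ℕ} (hs : HS q s) {w : Iq q → ℂ} :
    w ∈ Nc (Ns q s) ↔ ∀ u ∈ s, em q (q - u) w = 0 := by
  have h3 := hs.three
  have h : w ∈ Nc (Ns q s) ↔ ∀ u ∈ s, em q u (cj w) = 0 := Iff.rfl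
  rw [h]
  refine forall₂_congr fun u hu => ?_
  rw [em_cj (by omega) (hs.mem u hu).2.1.le, map_eq_zero]

/-- the embeddings separate the points -/
theorem em_ext {q : ℕ} (hq : 2 ≤ q) {w : Iq q → ℂ} (h : ∀ u ∈ UU q, em q u w = 0) : w = 0 := by
  set P : Polynomial ℂ := ∑ i : Iq q, Polynomial.C (w i) * Polynomial.X ^ (i : ℕ) with hP
  have hdeg : P.degree < (UU q).card := by
    rw [card_UU hq]
    have h0 : 0 < q.totient := Nat.totient_pos.2 (by omega)
    refine (Polynomial.degree_sum_le _ _).trans_lt ?_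
    rw [Finset.sup_lt_iff (by exact_mod_cast WithBot.bot_lt_coe _)]
    intro i _
    refine (Polynomial.degree_C_mul_X_pow_le _ _).trans_lt ?_
    exact_mod_cast i.2
  have hP0 : P = 0 := by
    refine Polynomial.eq_zero_of_degree_lt_of_eval_index_eq_zero (v := fun u : ℕ => zt q ^ u)
      (s := UU q) ?_ hdeg ?_
    · intro u hu v hv huv
      exact zt_inj (by omega) hu hv huv
    · intro u hu
      rw [hP, Polynomial.eval_finsetSum]
      have h1 := h u hu
      rw [Pool.Agent.Helper49.SH.em] at h1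
      rw [← h1]
      refine Finset.sum_congr rfl fun i _ => ?_
      rw [Polynomial.eval_mul, Polynomial.eval_C, Polynomial.eval_pow, Polynomial.eval_X, ← pow_mul]
  funext i
  have h1 : P.coeff (i : ℕ) = w i := by
    rw [hP, Polynomial.finsetSum_coeff, Finset.sum_eq_single i]
    · simp
    · intro j _ hj
      rw [Polynomial.coeff_C_mul_X_pow, if_neg]
      intro h2
      exact hj (Fin.ext h2.symm)
    · intro h2
      exact absurd (mem_univ i) h2
  rw [← h1, hP0, Polynomial.coeff_zero, Pi.zero_apply]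

theorem em_ext' {q : ℕ} (hq : 2 ≤ q) {w w' : Iq q → ℂ} (h : ∀ u ∈ UU q, em q u w = em q u w') :
    w = w' := by
  rw [← sub_eq_zero]
  refine em_ext hq fun u hu => ?_
  rw [em_sub, h u hu, sub_self]

/-- all embeddings together -/
def EM (q : ℕ) : (Iq q → ℂ) →ₗ[ℂ] (UU q → ℂ) := LinearMap.pi fun u => emL q u

theorem EM_surj {q : ℕ} (hq : 2 ≤ q) : Function.Surjective (EM q) := by
  have hinj : Function.Injective (EM q) := by
    rw [injective_iff_map_eq_zero]
    intro w hw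
    refine em_ext hq fun u hu => ?_
    exact congrFun hw ⟨u, hu⟩
  refine (LinearMap.injective_iff_surjective_of_finrank_eq_finrank ?_).1 hinj
  rw [Module.finrank_fintype_fun_eq_card, Module.finrank_fintype_fun_eq_card, Fintype.card_coe,
    card_UU hq, Fintype.card_fin]

/-- every vector of embeddings occurs -/
theorem em_exists {q : ℕ} (hq : 2 ≤ q) (c : ℕ → ℂ) : ∃ w : Iq q → ℂ, ∀ u ∈ UU q,
    em q u w = c u := by
  obtain ⟨w, hw⟩ := EM_surj hq (fun u => c u)
  exact ⟨w, fun u hu => congrFun hw ⟨u, hu⟩⟩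

theorem eps_exists {q : ℕ} (hq : 2 ≤ q) (u : ℕ) : ∃ ε, IsEps q u ε :=
  em_exists hq fun v => if v = u then 1 else 0

theorem eps_unique {q : ℕ} (hq : 2 ≤ q) {u : ℕ} {ε ε' : Iq q → ℂ} (h : IsEps q u ε)
    (h' : IsEps q u ε') : ε = ε' :=
  em_ext' hq fun v hv => by rw [h v hv, h' v hv]

/-! ### multiplication matrices -/

/-- matrix of the multiplication by `p (ζ)` -/
def Mp (q : ℕ) (p : Polynomial ℚ) : Iq q → Iq q → ℚ :=
  fun i j => ((p * Polynomial.X ^ (j : ℕ)) %ₘ Polynomial.cyclotomic q ℚ).coeff (i : ℕ)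

theorem cyc_root {q : ℕ} {u : ℕ} (hq : q ≠ 0) (hu : Nat.Coprime u q) :
    Polynomial.aeval (zt q ^ u) (Polynomial.cyclotomic q ℚ) = 0 := by
  have h1 : IsPrimitiveRoot (zt q ^ u) q := (zt_prim hq).pow_of_coprime u hu
  have h2 := h1.isRoot_cyclotomic (Nat.pos_of_ne_zero hq)
  rw [Polynomial.IsRoot.def] at h2
  rw [Polynomial.aeval_def, ← Polynomial.eval_map, Polynomial.map_cyclotomic]
  exact h2

theorem em_Mp {q : ℕ} (hq : 2 ≤ q) (p : Polynomial ℚ) {u : ℕ} (hu : u ∈ UU q) (w : Iq q → ℂ) :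
    em q u (mv (Mp q p) w) = Polynomial.aeval (zt q ^ u) p * em q u w := by
  have hq0 : q ≠ 0 := by omega
  have hu' := (mem_UU.1 hu).2
  have key : ∀ j : Iq q, ∑ i : Iq q, (Mp q p i j : ℂ) * zt q ^ (u * (i : ℕ)) =
      Polynomial.aeval (zt q ^ u) p * zt q ^ (u * (j : ℕ)) := by
    intro j
    set r := (p * Polynomial.X ^ (j : ℕ)) %ₘ Polynomial.cyclotomic q ℚ with hr
    have h1 : r.natDegree < q.totient := by
      have h2 := Polynomial.natDegree_modByMonic_lt (p * Polynomial.X ^ (j : ℕ))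
        (Polynomial.cyclotomic.monic q ℚ) (by
          intro h
          have h3 := congrArg Polynomial.natDegree h
          rw [Polynomial.natDegree_cyclotomic, Polynomial.natDegree_one] at h3
          have := Nat.totient_pos.2 (by omega : 0 < q)
          omega)
      rwa [Polynomial.natDegree_cyclotomic] at h2
    have h2 : Polynomial.aeval (zt q ^ u) r =
        Polynomial.aeval (zt q ^ u) (p * Polynomial.X ^ (j : ℕ)) :=
      Polynomial.aeval_modByMonic_eq_self_of_root (cyc_root hq0 hu')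
    rw [map_mul, map_pow, Polynomial.aeval_X, ← pow_mul] at h2
    rw [← h2, Polynomial.aeval_eq_sum_range' h1,
      ← Fin.sum_univ_eq_sum_range (fun i => r.coeff i • (zt q ^ u) ^ i)]
    refine Finset.sum_congr rfl fun i _ => ?_
    rw [Algebra.smul_def, ← pow_mul]
    rfl
  calc em q u (mv (Mp q p) w)
      = ∑ i : Iq q, ∑ j : Iq q, (Mp q p i j : ℂ) * w j * zt q ^ (u * (i : ℕ)) := by
        rw [Pool.Agent.Helper49.SH.em]
        refine Finset.sum_congr rfl fun i _ => ?_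
        rw [mv, Finset.sum_mul]
    _ = ∑ j : Iq q, w j * ∑ i : Iq q, (Mp q p i j : ℂ) * zt q ^ (u * (i : ℕ)) := by
        rw [Finset.sum_comm]
        refine Finset.sum_congr rfl fun j _ => ?_
        rw [Finset.mul_sum]
        exact Finset.sum_congr rfl fun i _ => by ring
    _ = _ := by
        rw [Pool.Agent.Helper49.SH.em, Finset.mul_sum]
        refine Finset.sum_congr rfl fun j _ => ?_
        rw [key j]
        ring

theorem Mp_one {q : ℕ} (hq : 2 ≤ q) (w : Iq q → ℂ) : mv (Mp q 1) w = w :=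
  em_ext' hq fun u hu => by rw [em_Mp hq 1 hu, map_one, one_mul]

theorem Mp_comp {q : ℕ} (hq : 2 ≤ q) (p r : Polynomial ℚ) (w : Iq q → ℂ) :
    mv (Mp q p) (mv (Mp q r) w) = mv (Mp q (p * r)) w :=
  em_ext' hq fun u hu => by rw [em_Mp hq p hu, em_Mp hq r hu, em_Mp hq _ hu, map_mul, mul_assoc]

/-- the multiplication by `ζ` preserves the form -/
theorem Eb_zeta {q : ℕ} (hq : 2 ≤ q) {ξ : Polynomial ℚ} {E : Iq q → Iq q → ℚ}
    (hK : KForm q ξ E) (w w' : Iq q → ℂ) :
    Eb E (mv (Mp q Polynomial.X) w) (mv (Mp q Polynomial.X) w') = Eb E w w' := by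
  rw [hK, hK]
  refine Finset.sum_congr rfl fun u hu => ?_
  rw [em_Mp hq _ hu, em_Mp hq _ (UU_neg hu), Polynomial.aeval_X, Polynomial.aeval_X]
  have h1 : zt q ^ u * zt q ^ (q - u) = 1 := by
    rw [← pow_add, Nat.add_sub_cancel' (by have := (mem_UU.1 hu).1; omega), zt_pow_q (by omega)]
  linear_combination (Polynomial.aeval (zt q ^ u) ξ * em q u w * em q (q - u) w') * h1

end

end Pool.Agent.Helper2.SH
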