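import Pool.Agent.Helper2.SH.Ka

/-!
PROJECT ALLQ (MP_274814_nt), block K, part 2: `K_scale`, `K_unique` from the form theorems.
-/

set_option autoImplicit false

namespace Pool.Agent.Helper2.SH

open Finset Complex Pool.Agent.Helper34.LT LTG Pool.Agent.Helper34.LU Pool.Agent.Helper49.SH

noncomputable section

section

variable {ι : Type} [Fintype ι]

theorem Eb_add_left (E : ι → ι → ℚ) (a b w : ι → ℂ) : Eb E (a + b) w = Eb E a w + Eb E b w := by
  simp only [Eb, ← Finset.sum_add_distrib, Pi.add_apply]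
  refine Finset.sum_congr rfl fun i _ => Finset.sum_congr rfl fun j _ => by ring

theorem Eb_smul_left (E : ι → ι → ℚ) (c : ℂ) (a w : ι → ℂ) : Eb E (c • a) w = c * Eb E a w := by
  simp only [Eb, Finset.mul_sum, Pi.smul_apply, smul_eq_mul]
  refine Finset.sum_congr rfl fun i _ => Finset.sum_congr rfl fun j _ => by ring

theorem nab_add (E : ι → ι → ℚ) (a b : ι → ℂ) (F : (ι → ℂ) → ℂ) (w : ι → ℂ) :
    nab E (a + b) F w = nab E a F w + nab E b F w := by
  simp only [nab, map_add, Eb_add_left]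
  ring

theorem nab_smul (E : ι → ι → ℚ) (c : ℂ) (a : ι → ℂ) (F : (ι → ℂ) → ℂ) (w : ι → ℂ) :
    nab E (c • a) F w = c * nab E a F w := by
  simp only [nab, map_smul, Eb_smul_left, smul_eq_mul]
  ring

theorem Valg_add {E : ι → ι → ℚ} {N : Submodule ℂ (ι → ℂ)} {a b : ι → ℂ} (ha : a ∈ Valg E N)
    (hb : b ∈ Valg E N) : a + b ∈ Valg E N := by
  refine ⟨(Nc N).add_mem ha.1 hb.1, fun F hF t => ?_⟩
  rw [nab_add]
  exact (ha.2 F hF t).add (hb.2 F hF t)

theorem Valg_smul {E : ι → ι → ℚ} {N : Submodule ℂ (ι → ℂ)} {a : ι → ℂ} (ha : a ∈ Valg E N)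
    {c : ℂ} (hc : IsAlgebraic ℚ c) : c • a ∈ Valg E N := by
  refine ⟨(Nc N).smul_mem c ha.1, fun F hF t => ?_⟩
  rw [nab_smul]
  exact hc.mul (ha.2 F hF t)

theorem Valg_sub {E : ι → ι → ℚ} {N : Submodule ℂ (ι → ℂ)} {a b : ι → ℂ} (ha : a ∈ Valg E N)
    (hb : b ∈ Valg E N) : a - b ∈ Valg E N := by
  have h := Valg_add ha (Valg_smul hb (c := -1) isAlgebraic_one.neg)
  rwa [neg_one_smul, ← sub_eq_add_neg] at h

theorem Valg_zero {E : ι → ι → ℚ} {N : Submodule ℂ (ι → ℂ)} : (0 : ι → ℂ) ∈ Valg E N := by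
  refine ⟨(Nc N).zero_mem, fun F _ t => ?_⟩
  have h : nab E 0 F (rv t) = 0 := by
    have := nab_smul E 0 0 F (rv t)
    rwa [zero_smul, zero_mul] at this
  rw [h]
  exact isAlgebraic_zero

end

/-- conclusion of the form theorem -/
def FormP {ι : Type} [Fintype ι] (E : ι → ι → ℚ) (N : Submodule ℂ (ι → ℂ)) : Prop :=
  ∃ b : Fin (Module.finrank ℂ N) → (ι → ℂ), (∀ i, b i ∈ Valg E N) ∧ LinearIndependent ℂ b ∧
    ∀ c : Fin (Module.finrank ℂ N) → ℂ, ∑ i, c i • b i ∈ Valg E N → ∀ i, IsAlgebraic ℚ (c i)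

variable {q : ℕ} {s : Finset ℕ}

theorem finrank_Ns {E : Iq q → Iq q → ℚ} (hs : HS q s) (hP : Pol E (Ns q s)) :
    Module.finrank ℂ (Ns q s) = s.card := by
  have h1 := hP.dim
  have h2 := card_half2 hs
  rw [Fintype.card_fin] at h1
  omega

/-- a holomorphic vector is determined by its embeddings in `s` -/
theorem Nc_ext (hs : HS q s) {w : Iq q → ℂ} (hw : w ∈ Nc (Ns q s)) (h : ∀ u ∈ s, em q u w = 0) :
    w = 0 := by
  have h3 := hs.three
  refine em_ext (by omega) fun u hu => ?_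
  by_cases h4 : u ∈ s
  · exact h u h4
  · obtain ⟨a1, a2⟩ := mem_UU.1 (UU_neg hu)
    obtain ⟨b1, b2⟩ := mem_UU.1 hu
    have h5 : q - u ∈ s := (hs.half (q - u) (by omega) (by omega) a2).2 (by
      rwa [Nat.sub_sub_self (by omega)])
    have h6 := (mem_Nc_Ns hs).1 hw (q - u) h5
    rwa [Nat.sub_sub_self (by omega)] at h6

/-- embeddings in a set `A` -/
def emA (q : ℕ) (A : Finset ℕ) : (Iq q → ℂ) →ₗ[ℂ] (A → ℂ) := LinearMap.pi fun u => emL q u

theorem emA_apply {A : Finset ℕ} (w : Iq q → ℂ) (u : A) : emA q A w u = em q u w := rfl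

/-- some vector of an independent family of `card s` holomorphic vectors has a nonzero embedding -/
theorem exists_em_ne (hs : HS q s) {n : ℕ} (hn : n = s.card) {b : Fin n → (Iq q → ℂ)}
    (hb : ∀ i, b i ∈ Nc (Ns q s)) (hli : LinearIndependent ℂ b) {u : ℕ} (hu : u ∈ s) :
    ∃ i, em q u (b i) ≠ 0 := by
  classical
  by_contra hcon
  push Not at hcon
  have hspan : ∀ w ∈ Submodule.span ℂ (Set.range b), w ∈ Nc (Ns q s) ∧ em q u w = 0 := by
    intro w hw
    induction hw using Submodule.span_induction with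
    | mem x hx =>
      obtain ⟨i, rfl⟩ := hx
      exact ⟨hb i, hcon i⟩
    | zero => exact ⟨(Nc _).zero_mem, em_zero q u⟩
    | add x y _ _ hx hy => exact ⟨(Nc _).add_mem hx.1 hy.1, by rw [em_add, hx.2, hy.2, add_zero]⟩
    | smul c x _ hx => exact ⟨(Nc _).smul_mem c hx.1, by rw [em_smul, hx.2, mul_zero]⟩
  have hdis : Disjoint (Submodule.span ℂ (Set.range b)) (LinearMap.ker (emA q (s.erase u))) := by
    rw [Submodule.disjoint_def]
    intro w hw hw'
    refine Nc_ext hs (hspan w hw).1 fun v hv => ?_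
    by_cases h : v = u
    · rw [h]
      exact (hspan w hw).2
    · exact congrFun (LinearMap.mem_ker.1 hw') ⟨v, mem_erase.2 ⟨h, hv⟩⟩
  have h1 := (hli.map hdis).fintype_card_le_finrank
  rw [Module.finrank_fintype_fun_eq_card, Fintype.card_coe, Fintype.card_fin,
    card_erase_of_mem hu] at h1
  have h2 := card_pos.2 ⟨u, hu⟩
  omega

/-- `Valg` is stable under the multiplication by `ζ` -/
def ZStab (q : ℕ) (s : Finset ℕ) (E : Iq q → Iq q → ℚ) : Prop :=
  ∀ e ∈ Valg E (Ns q s), mv (Mp q Polynomial.X) e ∈ Valg E (Ns q s)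

theorem valg_proj (hs : HS q s) {E : Iq q → Iq q → ℚ} (hZ : ZStab q s E) {e : Iq q → ℂ}
    (he : e ∈ Valg E (Ns q s)) (A : Finset ℕ) :
    ∃ e' ∈ Valg E (Ns q s), ∀ w ∈ UU q, em q w e' = (∏ v ∈ A, (zt q ^ w - zt q ^ v)) * em q w e := by
  classical
  have h3 := hs.three
  induction A using Finset.induction_on with
  | empty => exact ⟨e, he, fun w _ => by rw [prod_empty, one_mul]⟩
  | insert v A hv ih =>
    obtain ⟨e', he', h⟩ := ih
    refine ⟨mv (Mp q Polynomial.X) e' - zt q ^ v • e',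
      Valg_sub (hZ e' he') (Valg_smul he' (zt_alg (by omega) v)), fun w hw => ?_⟩
    rw [em_sub, em_smul, em_Mp (by omega) _ hw, Polynomial.aeval_X, h w hw, prod_insert hv]
    ring

/-- multiples of the vectors `ε` are algebraic -/
theorem valg_eps (hs : HS q s) {E : Iq q → Iq q → ℚ} (hP : Pol E (Ns q s)) (hZ : ZStab q s E)
    (hF : FormP E (Ns q s)) {u : ℕ} (hu : u ∈ s) :
    ∃ c : ℂ, c ≠ 0 ∧ ∀ ε, IsEps q u ε → c • ε ∈ Valg E (Ns q s) := by
  classical
  have h3 := hs.three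
  obtain ⟨b, hb, hli, -⟩ := hF
  obtain ⟨i, hi⟩ := exists_em_ne hs (finrank_Ns hs hP) (fun i => (hb i).1) hli hu
  obtain ⟨e', he', h⟩ := valg_proj hs hZ (hb i) (s.erase u)
  refine ⟨(∏ v ∈ s.erase u, (zt q ^ u - zt q ^ v)) * em q u (b i), mul_ne_zero ?_ hi,
    fun ε hε => ?_⟩
  · refine prod_ne_zero_iff.2 fun v hv => sub_ne_zero.2 fun h1 => ?_
    obtain ⟨h4, h5⟩ := mem_erase.1 hv
    exact h4 (zt_inj (by omega) (HS_mem hs ⟨u, hu⟩) (HS_mem hs ⟨v, h5⟩) h1).symm
  · have h1 : e' = ((∏ v ∈ s.erase u, (zt q ^ u - zt q ^ v)) * em q u (b i)) • ε := by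
      refine em_ext' (by omega) fun w hw => ?_
      rw [em_smul, hε w hw]
      by_cases h4 : w = u
      · rw [if_pos h4, mul_one, h4]
        exact h u (HS_mem hs ⟨u, hu⟩)
      · rw [if_neg h4, mul_zero, h w hw]
        by_cases h5 : w ∈ s
        · rw [prod_eq_zero (mem_erase.2 ⟨h4, h5⟩) (sub_self _), zero_mul]
        · obtain ⟨a1, a2⟩ := mem_UU.1 (UU_neg hw)
          obtain ⟨b1, b2⟩ := mem_UU.1 hw
          have h6 : q - w ∈ s := (hs.half (q - w) (by omega) (by omega) a2).2 (by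
            rwa [Nat.sub_sub_self (by omega)])
          have h7 := (mem_Nc_Ns hs).1 (hb i).1 (q - w) h6
          rw [Nat.sub_sub_self (by omega)] at h7
          rw [h7, mul_zero]
    rw [← h1]
    exact he'

theorem K_scale_of {ξ : Polynomial ℚ} {E : Iq q → Iq q → ℚ} (hs : HS q s)
    (hK : KForm q ξ E) (hP : Pol E (Ns q s)) (hG : Good E (Ns q s)) (hZ : ZStab q s E)
    (hF : FormP E (Ns q s)) : ∃ ρ, GoodS q s ρ := by
  classical
  have h : ∀ u : ℕ, ∃ c : ℂ, u ∈ s → c ≠ 0 ∧ ∀ ε, IsEps q u ε → c • ε ∈ Valg E (Ns q s) := by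
    intro u
    by_cases hu : u ∈ s
    · obtain ⟨c, hc⟩ := valg_eps hs hP hZ hF hu
      exact ⟨c, fun _ => hc⟩
    · exact ⟨0, fun h => absurd h hu⟩
  choose c hc using h
  refine ⟨fun u => (c u)⁻¹, hs, ξ, E, hK, hP, hG, fun u hu => ⟨inv_ne_zero (hc u hu).1,
    fun ε hε => ?_⟩⟩
  rw [inv_inv]
  exact (hc u hu).2 ε hε

/-- `Valg` is a form: the ratio of two proportional vectors is algebraic -/
theorem valg_ratio (hs : HS q s) {E : Iq q → Iq q → ℚ} (hP : Pol E (Ns q s))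
    (hF : FormP E (Ns q s)) {x : Iq q → ℂ} (hx : x ∈ Valg E (Ns q s)) (hx0 : x ≠ 0) {c : ℂ}
    (hc : c • x ∈ Valg E (Ns q s)) : IsAlgebraic ℚ c := by
  classical
  obtain ⟨b, hb, hli, hform⟩ := hF
  have hn := finrank_Ns hs hP
  -- `b` spans the holomorphic vectors
  have hmem : x ∈ Submodule.span ℂ (Set.range b) := by
    by_contra hcon
    have hli2 : LinearIndependent ℂ (Fin.cons x b : Fin (Module.finrank ℂ (Ns q s) + 1) → _) :=
      linearIndependent_finCons.2 ⟨hli, hcon⟩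
    have hdis : Disjoint (Submodule.span ℂ (Set.range
        (Fin.cons x b : Fin (Module.finrank ℂ (Ns q s) + 1) → (Iq q → ℂ))))
        (LinearMap.ker (emA q s)) := by
      rw [Submodule.disjoint_def]
      intro w hw hw'
      have hw2 : w ∈ Nc (Ns q s) := by
        refine (Submodule.span_le.2 ?_) hw
        rintro y ⟨i, rfl⟩
        refine Fin.cases ?_ (fun j => ?_) i
        · exact hx.1
        · exact (hb j).1
      exact Nc_ext hs hw2 fun v hv => congrFun (LinearMap.mem_ker.1 hw') ⟨v, hv⟩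
    have h1 := (hli2.map hdis).fintype_card_le_finrank
    rw [Module.finrank_fintype_fun_eq_card, Fintype.card_coe, Fintype.card_fin, hn] at h1
    omega
  rw [Submodule.mem_span_range_iff_exists_fun] at hmem
  obtain ⟨a, ha⟩ := hmem
  have h1 : ∀ i, IsAlgebraic ℚ (a i) := hform a (by rw [ha]; exact hx)
  have h2 : ∀ i, IsAlgebraic ℚ (c * a i) := by
    refine hform (fun i => c * a i) ?_
    have h3 : ∑ i, (c * a i) • b i = c • x := by
      rw [← ha, Finset.smul_sum]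
      exact Finset.sum_congr rfl fun i _ => by rw [smul_smul]
    rw [h3]
    exact hc
  obtain ⟨i, hi⟩ : ∃ i, a i ≠ 0 := by
    by_contra h3
    push Not at h3
    apply hx0
    rw [← ha]
    exact Finset.sum_eq_zero fun i _ => by rw [h3 i, zero_smul]
  have h4 := (h2 i).mul (h1 i).inv
  rwa [mul_assoc, mul_inv_cancel₀ hi, mul_one] at h4

theorem K_unique_of {ρ ρ' : ℕ → ℂ} (h : GoodS q s ρ) (h' : GoodS q s ρ')
    (hform : ∀ E : Iq q → Iq q → ℚ, Pol E (Ns q s) → Good E (Ns q s) → FormP E (Ns q s))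
    (hind : ∀ E E' : Iq q → Iq q → ℚ, Pol E (Ns q s) → Pol E' (Ns q s) → Good E (Ns q s) →
      Good E' (Ns q s) → Valg E (Ns q s) = Valg E' (Ns q s)) :
    ∀ u ∈ s, IsAlgebraic ℚ (ρ u / ρ' u) := by
  intro u hu
  obtain ⟨hs, ξ, E, hK, hP, hG, hρ⟩ := h
  obtain ⟨-, ξ', E', hK', hP', hG', hρ'⟩ := h'
  have h3 := hs.three
  obtain ⟨ε, hε⟩ := eps_exists (q := q) (by omega) u
  obtain ⟨h1, h2⟩ := hρ u hu
  obtain ⟨h4, h5⟩ := hρ' u hu
  have hx := h2 ε hε
  have hy := h5 ε hε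
  rw [← hind E E' hP hP' hG hG'] at hy
  have hε0 : ε ≠ 0 := by
    intro h6
    have h7 := hε u (HS_mem hs ⟨u, hu⟩)
    rw [h6, em_zero, if_pos rfl] at h7
    exact zero_ne_one h7
  refine valg_ratio hs hP (hform E hP hG) hx (smul_ne_zero (inv_ne_zero h1) hε0) ?_
  have h6 : (ρ u / ρ' u) • (ρ u)⁻¹ • ε = (ρ' u)⁻¹ • ε := by
    rw [smul_smul]
    congr 1
    field_simp
  rw [h6]
  exact hy

end

end Pool.Agent.Helper2.SH
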