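import Pool.Agent.Helper2.SH.Kb

/-!
PROJECT ALLQ (MP_274814_nt), block K, part 3: stability of `Valg` under the multiplication by `ζ`.
-/

set_option autoImplicit false

namespace Pool.Agent.Helper2.SH

open Finset Complex Pool.Agent.Helper34.LT LTG Pool.Agent.Helper34.LU Pool.Agent.Helper49.SH

noncomputable section

variable {ι ι' : Type} [Fintype ι] [Fintype ι']

theorem Eb_pb (E : ι → ι → ℚ) (M : ι → ι' → ℚ) (w w' : ι' → ℂ) :
    Eb (pb E M) w w' = Eb E (mv M w) (mv M w') := by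
  have h1 : Eb (pb E M) w w' = ∑ i' : ι', ∑ j' : ι', ∑ i : ι, ∑ j : ι,
      (E i j : ℂ) * (M i i' : ℂ) * (M j j' : ℂ) * w i' * w' j' := by
    refine Finset.sum_congr rfl fun i' _ => Finset.sum_congr rfl fun j' _ => ?_
    rw [pb]
    push_cast
    simp only [Finset.sum_mul]
  have h2 : Eb E (mv M w) (mv M w') = ∑ i : ι, ∑ j : ι, ∑ i' : ι', ∑ j' : ι',
      (E i j : ℂ) * (M i i' : ℂ) * (M j j' : ℂ) * w i' * w' j' := by
    refine Finset.sum_congr rfl fun i _ => Finset.sum_congr rfl fun j _ => ?_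
    rw [mv, mv, mul_assoc, Finset.sum_mul_sum, Finset.mul_sum]
    refine Finset.sum_congr rfl fun i' _ => ?_
    rw [Finset.mul_sum]
    refine Finset.sum_congr rfl fun j' _ => ?_
    ring
  rw [h1, h2]
  calc ∑ i' : ι', ∑ j' : ι', ∑ i : ι, ∑ j : ι,
      (E i j : ℂ) * (M i i' : ℂ) * (M j j' : ℂ) * w i' * w' j'
      = ∑ i' : ι', ∑ i : ι, ∑ j' : ι', ∑ j : ι,
        (E i j : ℂ) * (M i i' : ℂ) * (M j j' : ℂ) * w i' * w' j' :=
        Finset.sum_congr rfl fun i' _ => Finset.sum_comm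
    _ = ∑ i : ι, ∑ i' : ι', ∑ j' : ι', ∑ j : ι,
        (E i j : ℂ) * (M i i' : ℂ) * (M j j' : ℂ) * w i' * w' j' := Finset.sum_comm
    _ = ∑ i : ι, ∑ i' : ι', ∑ j : ι, ∑ j' : ι',
        (E i j : ℂ) * (M i i' : ℂ) * (M j j' : ℂ) * w i' * w' j' :=
        Finset.sum_congr rfl fun i _ => Finset.sum_congr rfl fun i' _ => Finset.sum_comm
    _ = _ := Finset.sum_congr rfl fun i _ => Finset.sum_comm

theorem Eb_single [DecidableEq ι] (E : ι → ι → ℚ) (i j : ι) :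
    Eb E (Pi.single i 1) (Pi.single j 1) = E i j := by
  rw [Eb, Finset.sum_eq_single i, Finset.sum_eq_single j]
  · simp
  · intro b _ hb
    rw [Pi.single_eq_of_ne hb, mul_zero]
  · intro h
    exact absurd (mem_univ j) h
  · intro b _ hb
    refine Finset.sum_eq_zero fun c _ => ?_
    rw [Pi.single_eq_of_ne hb, mul_zero, zero_mul]
  · intro h
    exact absurd (mem_univ i) h

theorem Eb_ext {E E' : ι → ι → ℚ} (h : ∀ w w', Eb E w w' = Eb E' w w') : E = E' := by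
  classical
  funext i j
  have h1 := h (Pi.single i 1) (Pi.single j 1)
  rw [Eb_single, Eb_single] at h1
  exact_mod_cast h1

variable {q : ℕ} {s : Finset ℕ}

theorem pb_zeta (hq : 2 ≤ q) {ξ : Polynomial ℚ} {E : Iq q → Iq q → ℚ} (hK : KForm q ξ E) :
    pb E (Mp q Polynomial.X) = E :=
  Eb_ext fun w w' => by rw [Eb_pb, Eb_zeta hq hK]

theorem comap_zeta (hs : HS q s) : (Ns q s).comap (mvL (Mp q Polynomial.X)) = Ns q s := by
  have h3 := hs.three
  ext w
  have h1 : w ∈ (Ns q s).comap (mvL (Mp q Polynomial.X)) ↔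
      ∀ u ∈ s, em q u (mv (Mp q Polynomial.X) w) = 0 := Iff.rfl
  have h2 : w ∈ Ns q s ↔ ∀ u ∈ s, em q u w = 0 := Iff.rfl
  rw [h1, h2]
  refine forall₂_congr fun u hu => ?_
  rw [em_Mp (by omega) _ (HS_mem hs ⟨u, hu⟩), Polynomial.aeval_X, mul_eq_zero]
  refine ⟨fun h => h.resolve_left ?_, Or.inr⟩
  exact pow_ne_zero _ ((zt_prim (by omega : q ≠ 0)).ne_zero (by omega))

theorem Mp_X_inv (hq : 2 ≤ q) (w : Iq q → ℂ) :
    mv (Mp q Polynomial.X) (mv (Mp q (Polynomial.X ^ (q - 1))) w) = w := by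
  refine em_ext' hq fun u hu => ?_
  rw [em_Mp hq _ hu, em_Mp hq _ hu, map_pow, Polynomial.aeval_X, ← mul_assoc, ← pow_succ',
    Nat.sub_add_cancel (by omega), ← pow_mul, mul_comm u q, pow_mul, zt_pow_q (by omega), one_pow,
    one_mul]

theorem Mp_X_inv' (hq : 2 ≤ q) (w : Iq q → ℂ) :
    mv (Mp q (Polynomial.X ^ (q - 1))) (mv (Mp q Polynomial.X) w) = w := by
  refine em_ext' hq fun u hu => ?_
  rw [em_Mp hq _ hu, em_Mp hq _ hu, map_pow, Polynomial.aeval_X, ← mul_assoc, ← pow_succ,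
    Nat.sub_add_cancel (by omega), ← pow_mul, mul_comm u q, pow_mul, zt_pow_q (by omega), one_pow,
    one_mul]

/-- the form of `E_iso` which is used -/
def IsoP (q : ℕ) (s : Finset ℕ) : Prop := ∀ (E : Iq q → Iq q → ℚ), Pol E (Ns q s) →
  Good E (Ns q s) → ∀ (M M' : Iq q → Iq q → ℚ), (∀ w, mv M (mv M' w) = w) →
    (∀ w, mv M' (mv M w) = w) → ∀ e, e ∈ Valg (pb E M) ((Ns q s).comap (mvL M)) ↔
      mv M e ∈ Valg E (Ns q s)

theorem zstab_of {ξ : Polynomial ℚ} {E : Iq q → Iq q → ℚ} (hs : HS q s) (hK : KForm q ξ E)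
    (hP : Pol E (Ns q s)) (hG : Good E (Ns q s)) (h : IsoP q s) : ZStab q s E := by
  intro e he
  have h3 := hs.three
  have h1 := h E hP hG (Mp q Polynomial.X) (Mp q (Polynomial.X ^ (q - 1)))
    (Mp_X_inv (by omega)) (Mp_X_inv' (by omega)) e
  rw [pb_zeta (by omega) hK, comap_zeta hs] at h1
  exact h1.1 he

end

end Pool.Agent.Helper2.SH
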