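import Pool.Agent.Helper2.SH.Kc
import Pool.Agent.Helper14.SH.Iso

/-!
PROJECT ALLQ (MP_274814_nt), block K, part 4: `K_scale` and `K_unique` from `E_form`, `E_indep`.
-/

set_option autoImplicit false

namespace Pool.Agent.Helper2.SH

open Finset Complex Pool.Agent.Helper34.LT LTG Pool.Agent.Helper34.LU Pool.Agent.Helper49.SH

noncomputable section

theorem isoP (q : ℕ) (s : Finset ℕ) : IsoP q s := fun E hP hG M M' h1 h2 e =>
  (Pool.Agent.Helper14.SH.E_iso (E := E) hP hG M M' h1 h2).2.2 e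

theorem K_scale_form {q : ℕ} {s : Finset ℕ} {ξ : Polynomial ℚ} {E : Iq q → Iq q → ℚ}
    (hs : HS q s) (hK : KForm q ξ E) (hP : Pol E (Ns q s)) (hG : Good E (Ns q s))
    (hF : FormP E (Ns q s)) : ∃ ρ, GoodS q s ρ :=
  K_scale_of hs hK hP hG (zstab_of hs hK hP hG (isoP q s)) hF

end

end Pool.Agent.Helper2.SH
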